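import Pool.Agent.H92.Trif

open MeasureTheory Set
open scoped ENNReal

namespace Pool.Agent.Results.MP_49e1f6_an.Nonnull

/-- The fair coin on the two digits 0 and 1. -/
noncomputable def coin : Measure (Fin 2) := (1 / 2 : ℝ≥0∞) • (Measure.dirac 0 + Measure.dirac 1)

/-- The coding map of the middle-thirds Cantor set. -/
noncomputable def code (x : ℕ → Fin 2) : ℝ := ∑' n : ℕ, 2 * ((x n : ℕ) : ℝ) / 3 ^ (n + 1)

/-- The Cantor measure: the image of the product of fair coins under the coding map. -/
noncomputable def cantorMeasure : Measure ℝ := (Measure.infinitePi fun _ : ℕ => coin).map code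

/-- There is a set of reals of positive outer Lebesgue measure, every translate of which meets
the Cantor set in at most three points and is null for the Cantor measure. -/
theorem result : IsProbabilityMeasure cantorMeasure ∧ ∃ X : Set ℝ, 0 < volume X ∧ ∀ t : ℝ,
    (((fun x => x + t) '' X) ∩ cantorSet).encard ≤ 3 ∧
      cantorMeasure ((fun x => x + t) '' X) = 0 := by
  have hc : IsProbabilityMeasure coin := ⟨by simp [coin, ENNReal.inv_two_add_inv_two]⟩
  let g : Fin 2 → Fin 3 := fun i => if i = 0 then 0 else 2
  have g1 : ∀ i, g i ≠ 1 := by decide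
  have gi : Function.Injective g := by decide
  have e : code = fun x => Real.ofDigits fun n => g (x n) := by
    funext x
    refine tsum_congr fun n => ?_
    have : ((g (x n) : ℕ) : ℝ) = 2 * ((x n : ℕ) : ℝ) := by
      generalize x n = i; fin_cases i <;> simp [g]
    simp only [Real.ofDigitsTerm, this, Nat.cast_ofNat, div_eq_mul_inv]
  have m : Measurable code := by
    rw [e]
    exact (Real.continuous_ofDigits.comp (continuous_pi fun n =>
      (continuous_of_discreteTopology (f := g)).comp (continuous_apply n))).measurable
  have inj : Function.Injective code := fun x y h => by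
    rw [e] at h
    exact funext fun n => gi (congrFun (ofDigits_zero_two_sequence_unique
      (fun n => g1 _) (fun n => g1 _) h) n)
  have atom : ∀ x : ℕ → Fin 2, Measure.infinitePi (fun _ : ℕ => coin) {x} = 0 := fun x => by
    have h2 : ∀ i : Fin 2, coin {i} = 2⁻¹ := fun i => by fin_cases i <;> simp [coin]
    refine le_antisymm (ge_of_tendsto' (ENNReal.tendsto_pow_atTop_nhds_zero_of_lt_one
      (r := 2⁻¹) (by simp)) fun n => ?_) zero_le
    refine (measure_mono (t := Set.pi (Finset.range n : Finset ℕ) fun i => {x i}) ?_).trans ?_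
    · rintro _ rfl i _; rfl
    · rw [Measure.infinitePi_pi _ fun _ _ => measurableSet_singleton _]
      simp [h2]
  refine ⟨Measure.isProbabilityMeasure_map m.aemeasurable, ?_⟩
  obtain ⟨X, h0, h⟩ := Pool.Agent.H92.Trif.main
  refine ⟨X, h0, fun t => ⟨h t, ?_⟩⟩
  have fin := finite_of_encard_le_coe (k := 3) (h t)
  refine measure_mono_null (t := cantorSetᶜ ∪ (((fun x => x + t) '' X) ∩ cantorSet))
    (fun y hy => (em _).symm.imp id fun h' => ⟨hy, h'⟩) ?_
  rw [cantorMeasure, Measure.map_apply m
    (isClosed_cantorSet.measurableSet.compl.union fin.measurableSet), preimage_union]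
  refine measure_union_null ?_ ?_
  · rw [eq_empty_of_forall_notMem (s := code ⁻¹' cantorSetᶜ) fun x hx => hx (by
      rw [e]; exact ofDigits_zero_two_sequence_mem_cantorSet fun n => g1 _), measure_empty]
  · rw [← biUnion_of_singleton (code ⁻¹' _)]
    exact (measure_biUnion_null_iff (fin.preimage inj.injOn).countable).mpr fun x _ => atom x

end Pool.Agent.Results.MP_49e1f6_an.Nonnull
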